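import Pool.Agent.MVO.StmtsC

/-!
# Squad MVO, row GMC: one more occurrence of `z` in a gathered word
-/

namespace Pool.Agent.MVO.H26

open Pool.Agent.Helper14_MV Pool.Agent.Helper2_MV

theorem gmc_first {P : ℕ → Prop} : ∀ D : List ℕ, (∀ c ∈ D, ¬ P c) ∨
    ∃ E1 v E2, D = E1 ++ v :: E2 ∧ P v ∧ ∀ c ∈ E1, ¬ P c := by
  classical
  intro D
  induction D with
  | nil => left; simp
  | cons a D ih =>
    by_cases ha : P a
    · exact Or.inr ⟨[], a, D, rfl, ha, by simp⟩
    · rcases ih with h | ⟨E1, v, E2, h1, h2, h3⟩
      · left
        intro c hc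
        rcases List.mem_cons.1 hc with h' | h'
        · rw [h']; exact ha
        · exact h c h'
      · right
        refine ⟨a :: E1, v, E2, by rw [h1]; rfl, h2, ?_⟩
        intro c hc
        rcases List.mem_cons.1 hc with h' | h'
        · rw [h']; exact ha
        · exact h3 c h'

/-- a letter of the left part goes over a power -/
theorem gmc_ovr (sgc : SgcStmt) (apc : ApcStmt) {β : FIC} (hβ : ClC1 β) {p q : List ℕ}
    {x c s : ℕ} (hx : x ∈ p) (hs : 1 ≤ s) (h1 : s = 1 → c ∈ q) :
    RR β (p ++ x :: (List.replicate s c ++ q)) (p ++ List.replicate s c ++ x :: q) := by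
  rcases Nat.lt_or_ge s 2 with h | h
  · have hs1 : s = 1 := by omega
    have h2 := (sgc β hβ.cc p q x c).1 hx (h1 hs1)
    subst hs1
    simpa [List.append_assoc] using h2
  · exact apc β hβ p q x c s hx h

/-- a letter of the left part goes over a gathered word -/
theorem gmc_ovg (sgc : SgcStmt) (apc : ApcStmt) {β : FIC} (hβ : ClC1 β) {n : ℕ → ℕ} {x : ℕ} :
    ∀ (D p q : List ℕ), x ∈ p → (∀ c ∈ D, 1 ≤ n c) → (∀ c ∈ D, n c = 1 → c ∈ q) →
      RR β (p ++ x :: (gb n D ++ q)) (p ++ gb n D ++ x :: q) := by
  intro D
  induction D with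
  | nil =>
    intro p q _ _ _
    have : gb n [] = [] := rfl
    rw [this]
    simpa using RR.refl (β := β) (p ++ x :: q)
  | cons c D ih =>
    intro p q hx h1 h2
    have hgb : gb n (c :: D) = List.replicate (n c) c ++ gb n D := rfl
    rw [hgb]
    have e1 : p ++ x :: (List.replicate (n c) c ++ gb n D ++ q) =
        p ++ x :: (List.replicate (n c) c ++ (gb n D ++ q)) := by rw [List.append_assoc]
    have e2 : p ++ (List.replicate (n c) c ++ gb n D) ++ x :: q =
        (p ++ List.replicate (n c) c) ++ gb n D ++ x :: q := by simp [List.append_assoc]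
    rw [e1, e2]
    have s1 := gmc_ovr sgc apc hβ (p := p) (q := gb n D ++ q) (x := x) (c := c) (s := n c) hx
      (h1 c (by simp)) (fun h => List.mem_append_right _ (h2 c (by simp) h))
    have s2 := ih (p ++ List.replicate (n c) c) q (List.mem_append_left _ hx)
      (fun d hd => h1 d (List.mem_cons_of_mem _ hd))
      (fun d hd => h2 d (List.mem_cons_of_mem _ hd))
    exact β.trans s1 s2

theorem gmc_gb_append (n : ℕ → ℕ) (A B : List ℕ) : gb n (A ++ B) = gb n A ++ gb n B := by
  unfold gb
  rw [List.flatMap_append]

theorem gmc_aux (sgc : SgcStmt) (apc : ApcStmt) {β : FIC} (hβ : ClC1 β) {n : ℕ → ℕ} {z m : ℕ}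
    {q : List ℕ} (hm : 1 ≤ m) :
    ∀ (N : ℕ) (D p : List ℕ), D.length = N → D.Nodup → z ∉ D → (∀ c ∈ D, 1 ≤ n c) →
      (∀ c ∈ D, n c = 1 → c ∈ p ∨ c ∈ q) →
        ∃ D' : List ℕ, D'.Perm (z :: D) ∧
          RR β (p ++ List.replicate m z ++ gb n D ++ z :: q)
            (p ++ gb (Function.update n z (m + 1)) D' ++ q) := by
  intro N
  induction N with
  | zero =>
    intro D p hD _ _ _ _
    have hD0 : D = [] := List.length_eq_zero_iff.1 hD
    subst hD0
    refine ⟨[z], List.Perm.refl _, ?_⟩
    have e1 : gb (Function.update n z (m + 1)) [z] = List.replicate m z ++ [z] := by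
      unfold gb
      rw [List.flatMap_cons, List.flatMap_nil, Function.update_self, List.append_nil,
        List.replicate_succ']
    have e2 : gb n ([] : List ℕ) = [] := rfl
    rw [e1, e2]
    have e3 : p ++ List.replicate m z ++ [] ++ z :: q = p ++ (List.replicate m z ++ [z]) ++ q := by
      simp [List.append_assoc]
    rw [e3]
    exact RR.refl _
  | succ N ih =>
    intro D p hD hnd hz h1 h2
    rcases gmc_first (P := fun c => n c = 1 ∧ c ∉ q) D with hno | ⟨E1, v, E2, hDe, hv, hE1⟩
    · refine ⟨z :: D, List.Perm.refl _, ?_⟩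
      have hs := gmc_ovg sgc apc hβ (n := n) (x := z) D (p ++ List.replicate m z) q
        (List.mem_append_right _ (List.mem_replicate.2 ⟨by omega, rfl⟩)) h1
        (fun c hc hc1 => by
          by_contra hcq
          exact hno c hc ⟨hc1, hcq⟩)
      have e1 : gb (Function.update n z (m + 1)) (z :: D) =
          (List.replicate m z ++ [z]) ++ gb n D := by
        unfold gb
        rw [List.flatMap_cons, Function.update_self, List.replicate_succ']
        congr 1
        refine flatMap_congr' (fun c hc => ?_)
        have hcz : c ≠ z := fun h => hz (h ▸ hc)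
        rw [Function.update_of_ne hcz]
      rw [e1]
      have e2 : p ++ (List.replicate m z ++ [z] ++ gb n D) ++ q =
          (p ++ List.replicate m z) ++ z :: (gb n D ++ q) := by simp [List.append_assoc]
      rw [e2]
      exact hs.symm
    · subst hDe
      have hnv : n v = 1 := hv.1
      have hvq : v ∉ q := hv.2
      have hvp : v ∈ p := by
        rcases h2 v (by simp) hnv with h | h
        · exact h
        · exact absurd h hvq
      have hvz : v ≠ z := by
        intro h
        exact hz (by rw [← h]; simp)
      have hlen : (E1 ++ E2).length = N := by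
        simp only [List.length_append, List.length_cons] at hD ⊢
        omega
      have hsub : ∀ c ∈ E1 ++ E2, c ∈ E1 ++ v :: E2 := by
        intro c hc
        rcases List.mem_append.1 hc with h | h
        · exact List.mem_append_left _ h
        · exact List.mem_append_right _ (List.mem_cons_of_mem _ h)
      have hnd' : (E1 ++ E2).Nodup := by
        have := List.nodup_middle.1 hnd
        exact (List.nodup_cons.1 this).2
      obtain ⟨D1, hp1, hr1⟩ := ih (E1 ++ E2) (p ++ [v]) hlen hnd'
        (fun h => hz (hsub z h)) (fun c hc => h1 c (hsub c hc))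
        (fun c hc hc1 => by
          rcases h2 c (hsub c hc) hc1 with h | h
          · exact Or.inl (List.mem_append_left _ h)
          · exact Or.inr h)
      refine ⟨v :: D1, ?_, ?_⟩
      · have a1 : (v :: D1).Perm (v :: (z :: (E1 ++ E2))) := List.Perm.cons v hp1
        have a2 : (v :: (z :: (E1 ++ E2))).Perm (z :: (v :: (E1 ++ E2))) := List.Perm.swap z v _
        have a3 : (z :: (v :: (E1 ++ E2))).Perm (z :: (E1 ++ v :: E2)) :=
          List.Perm.cons z List.perm_middle.symm
        exact (a1.trans a2).trans a3
      · have e0 : gb (Function.update n z (m + 1)) (v :: D1) =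
            v :: gb (Function.update n z (m + 1)) D1 := by
          unfold gb
          rw [List.flatMap_cons, Function.update_of_ne hvz, hnv]
          rfl
        rw [e0]
        have e1 : gb n (E1 ++ v :: E2) = gb n E1 ++ v :: gb n E2 := by
          rw [gmc_gb_append]
          congr 1
          unfold gb
          rw [List.flatMap_cons, hnv]
          rfl
        rw [e1]
        -- v over `gb n E1`
        have s1 := gmc_ovg sgc apc hβ (n := n) (x := v) E1 (p ++ List.replicate m z)
          (gb n E2 ++ z :: q) (List.mem_append_left _ hvp)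
          (fun c hc => h1 c (List.mem_append_left _ hc))
          (fun c hc hc1 => by
            have : c ∈ q := by
              by_contra hcq
              exact hE1 c hc ⟨hc1, hcq⟩
            simp [this])
        -- v over `z^m`
        have s2 := gmc_ovr sgc apc hβ (p := p) (q := gb n E1 ++ (gb n E2 ++ z :: q)) (x := v)
          (c := z) (s := m) hvp hm (fun _ => by simp)
        have e2 : p ++ List.replicate m z ++ (gb n E1 ++ v :: gb n E2) ++ z :: q =
            p ++ List.replicate m z ++ gb n E1 ++ v :: (gb n E2 ++ z :: q) := by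
          simp [List.append_assoc]
        have e3 : p ++ v :: (List.replicate m z ++ (gb n E1 ++ (gb n E2 ++ z :: q))) =
            p ++ [v] ++ List.replicate m z ++ gb n (E1 ++ E2) ++ z :: q := by
          rw [gmc_gb_append]
          simp [List.append_assoc]
        have e4 : p ++ v :: gb (Function.update n z (m + 1)) D1 ++ q =
            p ++ [v] ++ gb (Function.update n z (m + 1)) D1 ++ q := by
          simp [List.append_assoc]
        rw [e2, e4]
        rw [e3] at s2
        exact β.trans s1.symm (β.trans s2.symm hr1)

theorem gmc (sgc : SgcStmt) (apc : ApcStmt) : GmcStmt := by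
  intro β hβ D n z m p q hnd hz hm h1 h2
  exact gmc_aux sgc apc hβ hm D.length D p rfl hnd hz h1 h2

end Pool.Agent.MVO.H26
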