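import Pool.Agent.MVO.StmtsG

set_option autoImplicit false

/-! Row SUF of squad MVO: the sufficiency theorem. -/

namespace Pool.Agent.MVO.H26

open Pool.Agent.Helper14_MV Pool.Agent.Helper2_MV

theorem suf (red : RedStmt) (nam : NamStmt) (two : TwoStmt) (asb : AsbStmt) : SufStmt :=
  fun β hG hR hS hT hO hW =>
    red β hW (nam β (asb β hW hG hR hS hO (two β hG hR hT)))

end Pool.Agent.MVO.H26
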